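import Pool.Agent.H44.ISD2

open MeasureTheory ProbabilityTheory Set Pool.Agent.H44.ISD

theorem Pool.Agent.Results.MP_dbe012_pr.Q1False.result :
    ∃ μ ν : Measure ℝ, IsProbabilityMeasure μ ∧ IsProbabilityMeasure ν ∧
      Integrable (fun x : ℝ => x) μ ∧ Integrable (fun x : ℝ => x) ν ∧
      (∀ k, 1 ≤ k → k ≤ 3 - 1 → muMin μ k = muMin ν k) ∧ muMin μ 3 > muMin ν 3 ∧
      ∀ ρ : Measure ℝ, IsProbabilityMeasure ρ → Integrable (fun x : ℝ => x) ρ →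
        ∃ p ∈ Ioo (0 : ℝ) 1, Finv (ν ∗ ρ) (3 - 1) p < Finv (μ ∗ ρ) (3 - 1) p := by
  refine ⟨μX, μY, inferInstance, inferInstance, iX, iY, fun k h1 h2 => ?_, ?_, fun ρ _ hρ => ?_⟩
  · obtain rfl | rfl : k = 1 ∨ k = 2 := by omega
    · rw [muX.1, muY.1]
    · rw [muX.2.1, muY.2.1]
  · rw [muX.2.2, muY.2.2]; norm_num
  · obtain ⟨t0, h⟩ := tails hρ
    exact strict (conv_int iY hρ) (conv_int iX hρ) h
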